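import Pool.Agent.N180.ZlF

/-!
# The bound by the rank
-/

open Module Matrix

set_option linter.unusedSectionVars false

namespace Pool.Agent.N565.ZL

open Pool.Agent.N180.Zl Pool.Agent.N180.Zl.TFam N282.ZL

variable {K : Type*} [Field K] {ι : Type*} [Fintype ι] [DecidableEq ι]

lemma fac_kr {S R : Type} [Fintype S] [Fintype R] [DecidableEq S] [DecidableEq R]
    (M : Matrix (S → ι) (S → ι) K) (N : Matrix (R → ι) (R → ι) K) (ρ ρ' : ℕ)
    (h : Fac M ρ) (h' : Fac N ρ') : Fac (kr M N) (ρ * ρ') := by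
  have h1 := fac_reindex _ _ (Equiv.sumArrowEquivProdArrow S R ι).symm (fac_kron M N ρ ρ' h h')
  exact h1

lemma fac_one {m : Type*} [Fintype m] [DecidableEq m] :
    Fac (1 : Matrix m m K) (Fintype.card m) := by
  rw [fac_iff, Matrix.rank_one]

/-- The trivial bound. -/
lemma hs_triv {𝓣 : TFam K ι} (n : ℕ) (B : Ob 𝓣) (σ : ℕ) (h : Fac B.q σ) :
    Ob.hs n (Ob.one 𝓣) B ≤ σ * (Fintype.card ι ^ n * Fintype.card ι ^ n) := by
  have h1 : Fac (B.sq n) (σ * Fintype.card (Fin n → ι)) := fac_kr _ _ _ _ h fac_one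
  have h2 := fac_bound (B.sq n) _ h1 (Ob.HS n (Ob.one 𝓣) B) (fun M hM => hM.2.2)
  have h3 : Ob.hs n (Ob.one 𝓣) B ≤ finrank K (Ob.HS n (Ob.one 𝓣) B) := nr_le _ _
  refine h3.trans (h2.trans (le_of_eq ?_))
  have h4 : Fintype.card ((Ob.one 𝓣).S ⊕ Fin n → ι) = Fintype.card ι ^ n := by
    rw [Fintype.card_fun, Fintype.card_sum, Fintype.card_fin]
    have : Fintype.card (Ob.one 𝓣).S = 0 := Fintype.card_empty
    rw [this, zero_add]
  rw [h4, Fintype.card_fun, Fintype.card_fin]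
  ring

lemma power_trick [CharZero K] (𝓣 : TFam K ι) (hb : S_bend 𝓣) (n : ℕ) : ∀ (j : ℕ) (A : Ob 𝓣)
    (ρ : ℕ), Fac A.q ρ → Ob.hs n (Ob.one 𝓣) A ^ (2 ^ j) ≤
      Ob.hs n (Ob.one 𝓣) (Ob.one 𝓣) ^ (2 ^ j - 1) *
        (ρ ^ (2 ^ j) * (Fintype.card ι ^ n * Fintype.card ι ^ n)) := by
  intro j
  induction j with
  | zero =>
    intro A ρ h
    simpa using hs_triv n A ρ h
  | succ j ih =>
    intro A ρ h
    have h1 := Ob.cs n (Ob.one 𝓣) A
    rw [hb n A A] at h1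
    have h2 : Fac (Ob.tens A.dual A).q (ρ * ρ) := fac_kr _ _ _ _ (fac_transpose _ _ h) h
    have h3 := ih _ _ h2
    set α := Ob.hs n (Ob.one 𝓣) (Ob.one 𝓣)
    set b := Ob.hs n (Ob.one 𝓣) (Ob.tens A.dual A)
    set a := Ob.hs n (Ob.one 𝓣) A
    set D := Fintype.card ι ^ n * Fintype.card ι ^ n
    have e1 : 2 ^ (j + 1) = 2 * 2 ^ j := by rw [pow_succ]; ring
    have e2 : 2 ^ (j + 1) - 1 = 2 ^ j + (2 ^ j - 1) := by
      have : 1 ≤ 2 ^ j := Nat.one_le_two_pow
      omega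
    calc a ^ (2 ^ (j + 1)) = (a ^ 2) ^ (2 ^ j) := by rw [e1, pow_mul]
      _ ≤ (α * b) ^ (2 ^ j) := Nat.pow_le_pow_left h1 _
      _ = α ^ (2 ^ j) * b ^ (2 ^ j) := mul_pow _ _ _
      _ ≤ α ^ (2 ^ j) * (α ^ (2 ^ j - 1) * ((ρ * ρ) ^ (2 ^ j) * D)) := Nat.mul_le_mul_left _ h3
      _ = α ^ (2 ^ (j + 1) - 1) * (ρ ^ (2 ^ (j + 1)) * D) := by
        rw [e2, pow_add, e1, mul_pow, two_mul (2 ^ j), pow_add ρ]
        ring

theorem rank_le [CharZero K] (𝓣 : TFam K ι) (hb : S_bend 𝓣) : S_rank 𝓣 := by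
  intro n A ρ h
  have hk := fun j => power_trick 𝓣 hb n j A ρ h
  set α := Ob.hs n (Ob.one 𝓣) (Ob.one 𝓣)
  set a := Ob.hs n (Ob.one 𝓣) A
  set D := Fintype.card ι ^ n * Fintype.card ι ^ n
  by_contra hlt
  push Not at hlt
  have ha : ρ * α + 1 ≤ a := hlt
  rcases Nat.eq_zero_or_pos α with h0 | h0
  · have h1 := hk 1
    rw [h0] at h1
    simp at h1
    omega
  rcases Nat.eq_zero_or_pos ρ with h2 | h2
  · have h1 := hk 0
    rw [h2] at h1
    simp at h1
    omega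
  set m := ρ * α with hm
  have hm0 : 0 < m := Nat.mul_pos h2 h0
  -- the exponent
  set k := 2 ^ (m * D + 1) with hkd
  have hk0 : m * D + 1 < k := Nat.lt_two_pow_self
  have h3 : α * a ^ k ≤ m ^ k * D := by
    have h4 := Nat.mul_le_mul_left α (hk (m * D + 1))
    refine h4.trans (le_of_eq ?_)
    have h5 : α * α ^ (2 ^ (m * D + 1) - 1) = α ^ k := by
      rw [← pow_succ']
      congr 1
      have : 1 ≤ 2 ^ (m * D + 1) := Nat.one_le_two_pow
      omega
    rw [← mul_assoc, h5, ← mul_assoc, ← mul_pow, mul_comm α ρ]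
  have h6 : m ^ (k - 1) * m = m ^ k := by
    rw [← pow_succ]
    congr 1
    omega
  have h7 : m ^ k + k * m ^ (k - 1) ≤ a ^ k := by
    calc m ^ k + k * m ^ (k - 1) ≤ (m + 1) ^ k := by
          have h8 : ∀ l : ℕ, m ^ (l + 1) + (l + 1) * m ^ l ≤ (m + 1) ^ (l + 1) := by
            intro l
            induction l with
            | zero => simp
            | succ l ih =>
              have := Nat.mul_le_mul_right (m + 1) ih
              rw [pow_succ (m + 1) (l + 1)]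
              refine le_trans ?_ this
              rw [pow_succ m (l + 1), pow_succ m l]
              nlinarith [Nat.zero_le ((l + 1) * m ^ l)]
          have h9 := h8 (k - 1)
          have h10 : k - 1 + 1 = k := by omega
          rwa [h10] at h9
      _ ≤ a ^ k := Nat.pow_le_pow_left ha k
  have h8 : k * m ^ (k - 1) ≤ (m * D) * m ^ (k - 1) := by
    calc k * m ^ (k - 1) ≤ a ^ k := le_trans (Nat.le_add_left _ _) h7
      _ ≤ α * a ^ k := Nat.le_mul_of_pos_left _ h0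
      _ ≤ m ^ k * D := h3
      _ = (m * D) * m ^ (k - 1) := by rw [← h6]; ring
  have h9 : k ≤ m * D := Nat.le_of_mul_le_mul_right h8 (pow_pos hm0 _)
  omega

end Pool.Agent.N565.ZL
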